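import Mathlib
import Pool.Agent.Helper190.KHyp

open Filter Topology
open Pool.Agent.Helper190.KHyp

noncomputable section

set_option linter.unusedSectionVars false

/-! # Exotic embeddings which almost preserve all distances

The construction of `Pool.Agent.Helper190.KHyp` with a parameter `t`. -/

namespace Pool.Agent.U19.HC

variable {K : Type} [NormedDivisionRing K] [StarRing K] [NormedAlgebra ℝ K] [HypField K]

/-- `φ(x) = t max (Re x_1) 0`. -/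
def phi (t : ℝ) {n : ℕ} (i0 : Fin n) (x : Fin n → K) : ℝ := t * max (re (x i0)) 0

theorem phi_nonneg {t : ℝ} (ht : 0 ≤ t) {n : ℕ} (i0 : Fin n) (x : Fin n → K) :
    0 ≤ phi t i0 x := by
  unfold phi
  positivity

theorem phi_le {t : ℝ} (ht : 0 ≤ t) (ht2 : t ≤ 1 / 2) {n : ℕ} (i0 : Fin n) (x : Fin n → K)
    (hx : nsq x ≤ 1) : phi t i0 x ≤ 1 / 2 := by
  have h1 : ‖x i0‖ ≤ 1 := by
    have := (norm_coord_le x i0).trans hx
    nlinarith [norm_nonneg (x i0)]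
  have h2 := (abs_le.1 (abs_re_le (x i0))).2
  have h3 : max (re (x i0)) 0 ≤ 1 := max_le (h2.trans h1) zero_le_one
  have h4 : 0 ≤ max (re (x i0)) 0 := le_max_right _ _
  unfold phi
  nlinarith

theorem phi_lip (t : ℝ) {n : ℕ} (i0 : Fin n) (x y : Fin n → K) (hx : nsq x ≤ 1)
    (hy : nsq y ≤ 1) :
    (phi t i0 x - phi t i0 y) ^ 2 ≤ 2 * t ^ 2 * ‖1 - herm x y‖ := by
  have h1 : |max (re (x i0)) 0 - max (re (y i0)) 0| ≤ ‖x i0 - y i0‖ := by
    refine (abs_max_sub_max_le_abs _ _ _).trans ?_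
    rw [← re_sub]
    exact abs_re_le _
  have h2 : (max (re (x i0)) 0 - max (re (y i0)) 0) ^ 2 ≤ ‖x i0 - y i0‖ ^ 2 := by
    rw [← sq_abs]; gcongr
  have h3 : ‖x i0 - y i0‖ ^ 2 ≤ nsq (fun i => x i - y i) :=
    norm_coord_le (fun i => x i - y i) i0
  have h4 : nsq (fun i => x i - y i) ≤ 2 * re (1 - herm x y) := by
    rw [nsq_sub, re_sub, re_one']
    linarith
  have h5 : re (1 - herm x y) ≤ ‖1 - herm x y‖ := (abs_le.1 (abs_re_le _)).2
  have h6 : (phi t i0 x - phi t i0 y) ^ 2 =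
      t ^ 2 * (max (re (x i0)) 0 - max (re (y i0)) 0) ^ 2 := by unfold phi; ring
  rw [h6]
  have h7 : (max (re (x i0)) 0 - max (re (y i0)) 0) ^ 2 ≤ 2 * ‖1 - herm x y‖ := by linarith
  nlinarith [sq_nonneg t]

/-- The vector `(√(1 - φ(x)²) x, φ(x), 0, ..., 0)`. -/
def gvec (t : ℝ) {n : ℕ} (k : ℕ) (i0 : Fin n) (x : Fin n → K) : Fin (n + (k + 1)) → K :=
  Fin.append (fun i => √(1 - phi t i0 x ^ 2) • x i) (tailv k (phi t i0 x))

theorem one_sub_nsq_gvec {t : ℝ} (ht : 0 ≤ t) (ht2 : t ≤ 1 / 2) {n : ℕ} (k : ℕ) (i0 : Fin n)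
    (x : Fin n → K) (hx : nsq x ≤ 1) :
    1 - nsq (gvec t k i0 x) = √(1 - phi t i0 x ^ 2) ^ 2 * (1 - nsq x) := by
  have h1 := phi_nonneg ht i0 x
  have h2 := phi_le ht ht2 i0 x hx
  unfold gvec
  rw [nsq_append, nsq_tailv, nsq_smul, Real.sq_sqrt (by nlinarith)]
  ring

theorem one_sub_herm_gvec (t : ℝ) {n : ℕ} (k : ℕ) (i0 : Fin n) (x y : Fin n → K) :
    1 - herm (gvec t k i0 x) (gvec t k i0 y) =
      (1 - √(1 - phi t i0 x ^ 2) * √(1 - phi t i0 y ^ 2) - phi t i0 x * phi t i0 y) • (1 : K) +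
        (√(1 - phi t i0 x ^ 2) * √(1 - phi t i0 y ^ 2)) • (1 - herm x y) := by
  unfold gvec
  rw [herm_append, herm_tailv, herm_smul_left, herm_smul_right, smul_smul, smul_sub, sub_smul,
    sub_smul, one_smul]
  abel

theorem sqrt_phi_pos {t : ℝ} (ht : 0 ≤ t) (ht2 : t ≤ 1 / 2) {n : ℕ} (i0 : Fin n)
    (x : Fin n → K) (hx : nsq x ≤ 1) :
    0 < √(1 - phi t i0 x ^ 2) := by
  have h1 := phi_nonneg ht i0 x
  have h2 := phi_le ht ht2 i0 x hx
  exact Real.sqrt_pos.2 (by nlinarith)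

/-- The embedding `KH^n → KH^{n+k+1}`, `x ↦ (√(1 - φ(x)²) x, φ(x), 0, ..., 0)`. -/
def gmap {t : ℝ} (ht : 0 ≤ t) (ht2 : t ≤ 1 / 2) {n : ℕ} (k : ℕ) (i0 : Fin n) (x : HBall K n) :
    HBall K (n + (k + 1)) :=
  ⟨gvec t k i0 x.1, by
    have h := one_sub_nsq_gvec ht ht2 k i0 x.1 x.2.le
    have h1 := sqrt_phi_pos ht ht2 i0 x.1 x.2.le
    have h2 := x.2
    have h3 : 0 < √(1 - phi t i0 x.1 ^ 2) ^ 2 * (1 - nsq x.1) := by
      apply mul_pos (by positivity)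
      linarith
    linarith⟩

variable {t : ℝ} (ht : 0 ≤ t) (ht2 : t ≤ 1 / 2)

theorem sigma_gmap {n : ℕ} (k : ℕ) (i0 : Fin n) (x : HBall K n) :
    √(1 - nsq (gmap ht ht2 k i0 x).1) = √(1 - phi t i0 x.1 ^ 2) * √(1 - nsq x.1) := by
  change √(1 - nsq (gvec t k i0 x.1)) = _
  rw [one_sub_nsq_gvec ht ht2 k i0 x.1 x.2.le, Real.sqrt_mul (sq_nonneg _),
    Real.sqrt_sq (Real.sqrt_nonneg _)]

theorem cosh_gmap {n : ℕ} (k : ℕ) (i0 : Fin n) (x y : HBall K n) :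
    Real.cosh (hdist x y) ≤ Real.cosh (hdist (gmap ht ht2 k i0 x) (gmap ht ht2 k i0 y)) ∧
    Real.cosh (hdist (gmap ht ht2 k i0 x) (gmap ht ht2 k i0 y)) ≤
      (1 + 3 * t ^ 2) * Real.cosh (hdist x y) := by
  have hx := x.2.le
  have hy := y.2.le
  obtain ⟨c0, c1, c2⟩ := coef_bounds (phi_nonneg ht i0 x.1) (phi_le ht ht2 i0 x.1 hx)
    (phi_nonneg ht i0 y.1) (phi_le ht ht2 i0 y.1 hy)
  have hl := phi_lip t i0 x.1 y.1 hx hy
  have hA := sqrt_phi_pos ht ht2 i0 x.1 hx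
  have hB := sqrt_phi_pos ht ht2 i0 y.1 hy
  have hσ := sigma_pos x
  have hσ' := sigma_pos y
  have hN : 0 ≤ ‖1 - herm x.1 y.1‖ := norm_nonneg _
  have hre : 0 ≤ re (1 - herm x.1 y.1) := by
    have h1 := nsq_sub x.1 y.1
    have h2 := nsq_nonneg (fun i => x.1 i - y.1 i)
    rw [re_sub, re_one']
    linarith
  rw [cosh_hdist, cosh_hdist, sigma_gmap, sigma_gmap]
  change _ ≤ ‖1 - herm (gvec t k i0 x.1) (gvec t k i0 y.1)‖ / _ ∧
    ‖1 - herm (gvec t k i0 x.1) (gvec t k i0 y.1)‖ / _ ≤ _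
  rw [one_sub_herm_gvec]
  set A := √(1 - phi t i0 x.1 ^ 2)
  set B := √(1 - phi t i0 y.1 ^ 2)
  set σ := √(1 - nsq x.1)
  set σ' := √(1 - nsq y.1)
  set c := 1 - A * B - phi t i0 x.1 * phi t i0 y.1
  set w := 1 - herm x.1 y.1
  have hAB : 0 < A * B := mul_pos hA hB
  have hlow : A * B * ‖w‖ ≤ ‖c • (1 : K) + (A * B) • w‖ := by
    have h : (A * B * ‖w‖) ^ 2 ≤ ‖c • (1 : K) + (A * B) • w‖ ^ 2 := by
      rw [norm_real_add, norm_smul, Real.norm_of_nonneg hAB.le, re_smul]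
      have : 0 ≤ 2 * c * (A * B * re w) := by positivity
      nlinarith [sq_nonneg c]
    exact (pow_le_pow_iff_left₀ (by positivity) (norm_nonneg _) two_ne_zero).1 h
  have hupp : ‖c • (1 : K) + (A * B) • w‖ ≤ c + A * B * ‖w‖ := by
    refine (norm_add_le _ _).trans ?_
    rw [norm_smul, norm_smul, norm_one, mul_one, Real.norm_of_nonneg hAB.le,
      Real.norm_of_nonneg c0]
  have hupp2 : ‖c • (1 : K) + (A * B) • w‖ ≤ (1 + 3 * t ^ 2) * (A * B * ‖w‖) := by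
    have h1 : c ≤ 2 * t ^ 2 * ‖w‖ := c1.trans hl
    have h2 : 2 * t ^ 2 * ‖w‖ ≤ 3 * t ^ 2 * (A * B * ‖w‖) := by
      have h3 : 3 / 4 * (t ^ 2 * ‖w‖) ≤ A * B * (t ^ 2 * ‖w‖) :=
        mul_le_mul_of_nonneg_right c2 (by positivity)
      nlinarith [mul_nonneg (sq_nonneg t) hN]
    linarith
  constructor
  · rw [div_le_div_iff₀ (by positivity) (by positivity)]
    calc ‖w‖ * (A * σ * (B * σ')) = (A * B * ‖w‖) * (σ * σ') := by ring
      _ ≤ _ := by gcongr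
  · rw [← mul_div_assoc, div_le_div_iff₀ (by positivity) (by positivity)]
    calc ‖c • (1 : K) + (A * B) • w‖ * (σ * σ') ≤
          ((1 + 3 * t ^ 2) * (A * B * ‖w‖)) * (σ * σ') := by gcongr
      _ = _ := by ring

theorem gmap_near {n : ℕ} (k : ℕ) (i0 : Fin n) {ε : ℝ} (hε : 0 ≤ ε) (hte : 6 * t ^ 2 ≤ ε ^ 2)
    (x y : HBall K n) :
    hdist x y ≤ hdist (gmap ht ht2 k i0 x) (gmap ht ht2 k i0 y) ∧
      hdist (gmap ht ht2 k i0 x) (gmap ht ht2 k i0 y) ≤ hdist x y + ε := by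
  obtain ⟨h1, h2⟩ := cosh_gmap ht ht2 k i0 x y
  have h3 := le_of_cosh_le (hdist_nonneg _ _) (hdist_nonneg _ _) h1
  refine ⟨h3, ?_⟩
  have h0 := hdist_nonneg x y
  apply le_of_cosh_le (hdist_nonneg _ _) (by linarith)
  refine h2.trans ?_
  rw [Real.cosh_add]
  have e1 : 1 + ε ^ 2 / 2 ≤ Real.cosh ε := by
    have h5 : Real.cosh ε = Real.cosh (ε / 2) ^ 2 + Real.sinh (ε / 2) ^ 2 := by
      rw [← Real.cosh_two_mul]; congr 1; ring
    have h6 := Real.cosh_sq (ε / 2)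
    have h7 : ε / 2 ≤ Real.sinh (ε / 2) := Real.self_le_sinh_iff.2 (by linarith)
    nlinarith
  have e2 := Real.cosh_pos (hdist x y)
  have e3 : 0 ≤ Real.sinh (hdist x y) := Real.sinh_nonneg_iff.2 h0
  have e4 : 0 ≤ Real.sinh ε := Real.sinh_nonneg_iff.2 hε
  nlinarith [mul_nonneg e3 e4]

theorem nsq_gmap_seqp {n : ℕ} (k : ℕ) (i0 : Fin n) (q : K) (hq : ‖q‖ = 1) :
    Tendsto (fun l => nsq (gmap ht ht2 k i0 (seqp i0 q hq l)).1) atTop (𝓝 1) := by
  have h1 : Tendsto (fun l => rk l ^ 2) atTop (𝓝 1) := by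
    have := rk_tendsto.pow 2
    rwa [one_pow] at this
  refine tendsto_of_tendsto_of_tendsto_of_le_of_le h1 tendsto_const_nhds (fun l => ?_)
    (fun l => (gmap ht ht2 k i0 (seqp i0 q hq l)).2.le)
  have h2 := one_sub_nsq_gvec ht ht2 k i0 (seqp i0 q hq l).1 (seqp i0 q hq l).2.le
  have h3 : nsq (seqp i0 q hq l).1 = rk l ^ 2 := by
    change nsq (unitv i0 (rk l • q)) = _
    rw [nsq_unitv, norm_smul, hq, mul_one, Real.norm_eq_abs, sq_abs]
  have h4 : √(1 - phi t i0 (seqp i0 q hq l).1 ^ 2) ^ 2 ≤ 1 := by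
    have h5 := phi_nonneg ht i0 (seqp i0 q hq l).1
    have h6 := phi_le ht ht2 i0 (seqp i0 q hq l).1 (seqp i0 q hq l).2.le
    rw [Real.sq_sqrt (by nlinarith)]
    nlinarith
  change rk l ^ 2 ≤ nsq (gvec t k i0 (seqp i0 q hq l).1)
  rw [h3] at h2
  have h7 : 0 ≤ 1 - rk l ^ 2 := by nlinarith [rk_pos l, rk_lt_one l]
  have h8 := mul_le_mul_of_nonneg_right h4 h7
  linarith

theorem gmap_exotic {n : ℕ} (ht0 : 0 < t) (k : ℕ) (i0 : Fin n) :
    IsExotic (gmap (K := K) ht ht2 k i0) := by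
  have nI : ‖(HypField.im : K)‖ = 1 := HypField.norm_im
  have nI' : ‖-(HypField.im : K)‖ = 1 := by rw [norm_neg, nI]
  have n1 : ‖(1 : K)‖ = 1 := norm_one
  have rI : re (HypField.im : K) = 0 := HypField.re_im
  refine exotic_core (gmap ht ht2 k i0) (seqp i0 HypField.im nI) (seqp i0 (-HypField.im) nI')
    (seqp i0 1 n1) (Fin.natAdd n 0) t ht0 ?_ (nsq_gmap_seqp ht ht2 k i0 _ nI)
    (nsq_gmap_seqp ht ht2 k i0 _ nI') (nsq_gmap_seqp ht ht2 k i0 _ n1) ?_ ?_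
  · refine tendsto_const_nhds.congr (fun l => ?_)
    have hφ : ∀ s : ℝ, phi t i0 (unitv i0 (rk l • (s • (HypField.im : K)))) = 0 := by
      intro s
      unfold phi unitv
      simp [re, HypField.re_im]
    have e1 : (gmap ht ht2 k i0 (seqp i0 (HypField.im : K) nI l)).1 =
        gvec t k i0 (unitv i0 (rk l • ((1 : ℝ) • (HypField.im : K)))) := by rw [one_smul]; rfl
    have e2 : (gmap ht ht2 k i0 (seqp i0 (-(HypField.im : K)) nI' l)).1 =
        gvec t k i0 (unitv i0 (rk l • ((-1 : ℝ) • (HypField.im : K)))) := by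
      rw [neg_smul, one_smul]; rfl
    rw [e1, e2]
    unfold gvec
    rw [hφ, hφ]
    unfold nsq
    symm
    apply Finset.sum_eq_zero
    intro i _
    rw [Fin.append]
    refine Fin.addCases (fun j => ?_) (fun j => ?_) i
    · simp [unitv]
      by_cases hj : j = i0 <;> simp [hj]
    · simp [tailv]
  · have h1 : Tendsto (fun l => t * rk l) atTop (𝓝 t) := by
      have := rk_tendsto.const_mul t
      rwa [mul_one] at this
    refine h1.congr (fun l => ?_)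
    change _ = re (gvec t k i0 (unitv i0 (rk l • (1 : K))) (Fin.natAdd n 0))
    unfold gvec
    rw [Fin.append_right]
    unfold tailv phi unitv
    simp [re_one', (rk_pos l).le]
  · intro x
    change 0 ≤ re (gvec t k i0 x.1 (Fin.natAdd n 0))
    unfold gvec
    rw [Fin.append_right]
    unfold tailv
    simp [re_one', phi_nonneg ht]

/-- For `K = ℂ` or `ℍ`, all `n ≥ 1`, all `m > n` and all `ε > 0` there is an exotic embedding of
`KH^n` into `KH^m` which increases the distances by at most `ε`. -/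
theorem exists_exotic_near (K : Type) [NormedDivisionRing K] [StarRing K] [NormedAlgebra ℝ K]
    [HypField K] (n m : ℕ) (hn : 1 ≤ n) (hnm : n < m) (ε : ℝ) (hε : 0 < ε) :
    ∃ f : HBall K n → HBall K m, (∀ x y, hdist x y ≤ hdist (f x) (f y) ∧
      hdist (f x) (f y) ≤ hdist x y + ε) ∧ IsQIEmbedding f ∧ IsExotic f := by
  obtain ⟨k, rfl⟩ := Nat.exists_eq_add_of_lt hnm
  have ht0 : 0 < min (1 / 2) (ε / 3) := by positivity
  have ht2 : min (1 / 2) (ε / 3) ≤ 1 / 2 := min_le_left _ _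
  have hte : 6 * (min (1 / 2) (ε / 3)) ^ 2 ≤ ε ^ 2 := by
    have h1 : min (1 / 2) (ε / 3) ≤ ε / 3 := min_le_right _ _
    nlinarith
  have key := gmap_near (K := K) ht0.le ht2 k (⟨0, by omega⟩ : Fin n) hε.le hte
  refine ⟨gmap ht0.le ht2 k ⟨0, by omega⟩, key, ⟨1, ε, le_rfl, hε.le, fun x y => ?_⟩,
    gmap_exotic ht0.le ht2 ht0 _ _⟩
  obtain ⟨h1, h2⟩ := key x y
  rw [inv_one, one_mul]
  exact ⟨by linarith, h2⟩

end Pool.Agent.U19.HC
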